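import Pool.Agent.Y773.D4.Def

/-!
From the large sieve over `ℤ[i]` to ideals of `M` (project D4 of helper773, job D4-LSM).
-/

set_option autoImplicit false

open NumberField

namespace Pool.Agent.Y737.D4

open Pool.Agent.Y773 (VM)
open Pool.Agent.Y773.D4

theorem unit_cases (u : GaussianInt) (h : IsUnit u) :
    u = 1 ∨ u = -1 ∨ u = ⟨0, 1⟩ ∨ u = ⟨0, -1⟩ := by
  rw [← Zsqrtd.norm_eq_one_iff] at h
  obtain ⟨a, b⟩ := u
  have h1 : Zsqrtd.norm (⟨a, b⟩ : GaussianInt) = a * a + b * b := by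
    simp [Zsqrtd.norm_def]
  have h2 : a * a + b * b = 1 := by
    rw [← h1]
    have := GaussianInt.norm_nonneg (⟨a, b⟩ : GaussianInt)
    omega
  have h3 : -1 ≤ a := by nlinarith
  have h4 : a ≤ 1 := by nlinarith
  have h5 : -1 ≤ b := by nlinarith
  have h6 : b ≤ 1 := by nlinarith
  interval_cases a <;> interval_cases b <;> simp_all [Zsqrtd.ext_iff]

/-- the four units -/
def U4 : Finset GaussianInt := {1, -1, ⟨0, 1⟩, ⟨0, -1⟩}

theorem mem_U4 (u : GaussianInt) : u ∈ U4 ↔ IsUnit u := by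
  constructor
  · intro h
    simp only [U4, Finset.mem_insert, Finset.mem_singleton] at h
    rw [← Zsqrtd.norm_eq_one_iff]
    rcases h with rfl | rfl | rfl | rfl <;> simp [Zsqrtd.norm_def]
  · intro h
    simp only [U4, Finset.mem_insert, Finset.mem_singleton]
    exact unit_cases u h

theorem card_U4 : U4.card = 4 := by decide

theorem chi_unit (χ : GaussianInt →* ℂ) (h : χ ⟨0, 1⟩ = 1) (u : GaussianInt) (hu : IsUnit u) :
    χ u = 1 := by
  have h1 : (-1 : GaussianInt) = ⟨0, 1⟩ * ⟨0, 1⟩ := by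
    ext <;> simp
  have h2 : (⟨0, -1⟩ : GaussianInt) = -1 * ⟨0, 1⟩ := by
    ext <;> simp
  have h3 : χ (-1) = 1 := by rw [h1, map_mul, h, one_mul]
  rcases unit_cases u hu with rfl | rfl | rfl | rfl
  · exact map_one χ
  · exact h3
  · exact h
  · rw [h2, map_mul, h3, h, one_mul]

theorem gen_assoc (n : GaussianInt) :
    Associated (Submodule.IsPrincipal.generator (Ideal.span {n})) n :=
  Submodule.IsPrincipal.associated_generator_span_self n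

theorem norm_assoc {a b : GaussianInt} (h : Associated a b) : a.norm.natAbs = b.norm.natAbs := by
  obtain ⟨u, rfl⟩ := h
  rw [Zsqrtd.norm_mul, Int.natAbs_mul, Zsqrtd.norm_eq_one_iff.2 u.isUnit, mul_one]

theorem nI_span (n : GaussianInt) : nI (Ideal.span {n}) = n.norm.natAbs :=
  norm_assoc (gen_assoc n)

theorem chI_span (χ : GaussianInt →* ℂ) (h : χ ⟨0, 1⟩ = 1) (n : GaussianInt) :
    chI χ (Ideal.span {n}) = χ n := by
  obtain ⟨u, hu⟩ := gen_assoc n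
  have e : χ n = χ (Submodule.IsPrincipal.generator (Ideal.span {n}) * u) :=
    congrArg χ hu.symm
  unfold chI
  rw [e, map_mul, chi_unit χ h _ u.isUnit, mul_one]

theorem span_gen (𝔫 : Ideal GaussianInt) :
    Ideal.span {Submodule.IsPrincipal.generator 𝔫} = 𝔫 := Ideal.span_singleton_generator 𝔫

open Classical in
/-- the ideals of norm `m` -/
noncomputable def Im (B : Finset GaussianInt) (m : ℕ) : Finset (Ideal GaussianInt) :=
  (B.filter fun n => n.norm.natAbs = m).image fun n => Ideal.span {n}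

theorem mem_Im {B : Finset GaussianInt} {N m : ℕ}
    (hB : ∀ n : GaussianInt, n ∈ B ↔ n ≠ 0 ∧ n.norm.natAbs ≤ N) (h1 : 1 ≤ m) (h2 : m ≤ N)
    (𝔫 : Ideal GaussianInt) : 𝔫 ∈ Im B m ↔ nI 𝔫 = m := by
  simp only [Im, Finset.mem_image, Finset.mem_filter]
  constructor
  · rintro ⟨n, ⟨_, hn⟩, rfl⟩
    rw [nI_span, hn]
  · intro h
    refine ⟨Submodule.IsPrincipal.generator 𝔫, ⟨(hB _).2 ⟨?_, ?_⟩, h⟩, span_gen 𝔫⟩
    · intro h0
      unfold nI at h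
      rw [h0, Zsqrtd.norm_zero] at h
      simp at h
      omega
    · unfold nI at h
      omega

open Classical in
/-- a sum over elements is four times the sum over the ideals -/
theorem sum4 {E : Type} [AddCommMonoid E] {B : Finset GaussianInt} {N m : ℕ}
    (hB : ∀ n : GaussianInt, n ∈ B ↔ n ≠ 0 ∧ n.norm.natAbs ≤ N)
    (F : Ideal GaussianInt → E) :
    ∑ n ∈ B.filter (fun n => n.norm.natAbs = m), F (Ideal.span {n}) =
      4 • ∑ 𝔫 ∈ Im B m, F 𝔫 := by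
  rw [← Finset.sum_fiberwise_of_maps_to' (t := Im B m) (g := fun n => Ideal.span {n})
    (fun n hn => Finset.mem_image_of_mem _ hn) F, Finset.smul_sum]
  refine Finset.sum_congr rfl fun 𝔫 h𝔫 => ?_
  rw [Finset.sum_const]
  congr 1
  simp only [Im, Finset.mem_image, Finset.mem_filter] at h𝔫
  obtain ⟨g, ⟨hgB, hg⟩, rfl⟩ := h𝔫
  have hg0 : g ≠ 0 := ((hB g).1 hgB).1
  have e : (B.filter fun n => n.norm.natAbs = m).filter
      (fun n => Ideal.span {n} = Ideal.span {g}) = U4.image (fun u => g * u) := by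
    ext n
    simp only [Finset.mem_filter, Finset.mem_image, mem_U4]
    constructor
    · rintro ⟨_, h⟩
      obtain ⟨u, hu⟩ := (Ideal.span_singleton_eq_span_singleton.1 h).symm
      exact ⟨u, u.isUnit, hu⟩
    · rintro ⟨u, hu, rfl⟩
      have ha : Associated g (g * u) := ⟨hu.unit, by simp⟩
      have hn := norm_assoc ha
      refine ⟨⟨(hB _).2 ⟨mul_ne_zero hg0 hu.ne_zero, ?_⟩, by rw [← hn, hg]⟩,
        Ideal.span_singleton_eq_span_singleton.2 ha.symm⟩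
      rw [← hn]
      exact ((hB g).1 hgB).2
  rw [e, Finset.card_image_of_injective _ (mul_right_injective₀ hg0), card_U4]

theorem cop {n P : GaussianInt} (h : Nat.Coprime n.norm.natAbs P.norm.natAbs) :
    IsCoprime n P := by
  have h1 : IsCoprime ((n.norm.natAbs : ℕ) : ℤ) ((P.norm.natAbs : ℕ) : ℤ) :=
    Nat.isCoprime_iff_coprime.2 h
  rw [Int.natAbs_of_nonneg (GaussianInt.norm_nonneg n),
    Int.natAbs_of_nonneg (GaussianInt.norm_nonneg P)] at h1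
  obtain ⟨a, b, hab⟩ := h1
  refine ⟨a * star n, b * star P, ?_⟩
  have h2 : ((a * n.norm + b * P.norm : ℤ) : GaussianInt) = 1 := by
    rw [hab]
    simp
  push_cast at h2
  rw [Zsqrtd.norm_eq_mul_conj, Zsqrtd.norm_eq_mul_conj] at h2
  rw [← h2]
  ring

section
variable {M : Type} [Field M] [NumberField M]

theorem pp (𝔞 : Ideal (𝓞 M)) (h : IsPrimePow 𝔞) : IsPrimePow (Ideal.absNorm 𝔞) := by
  obtain ⟨𝔭, k, hp, hk, rfl⟩ := h
  rw [map_pow]
  refine IsPrimePow.pow ?_ hk.ne'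
  have hpr : 𝔭.IsPrime := Ideal.isPrime_of_prime hp
  have hne : 𝔭 ≠ ⊥ := hp.ne_zero
  have hmax : 𝔭.IsMaximal := hpr.isMaximal hne
  let _ : Field (𝓞 M ⧸ 𝔭) := Ideal.Quotient.field 𝔭
  have : Finite (𝓞 M ⧸ 𝔭) := Ideal.finiteQuotientOfFreeOfNeBot 𝔭 hne
  let _ : Fintype (𝓞 M ⧸ 𝔭) := Fintype.ofFinite _
  have e : Ideal.absNorm 𝔭 = Fintype.card (𝓞 M ⧸ 𝔭) := by
    rw [Ideal.absNorm_apply, Submodule.cardQuot_apply, Nat.card_eq_fintype_card]
  rw [e]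
  exact FiniteField.isPrimePow_card _

variable [Algebra GaussianInt (𝓞 M)]

/-- the ideals of `M` of norm `m` -/
noncomputable def FA (M : Type) [Field M] [NumberField M] (m : ℕ) : Finset (Ideal (𝓞 M)) :=
  (Ideal.finite_setOfPred_absNorm_eq (S := 𝓞 M) m).toFinset

theorem mem_FA {m : ℕ} {𝔞 : Ideal (𝓞 M)} : 𝔞 ∈ FA M m ↔ Ideal.absNorm 𝔞 = m := by
  unfold FA
  rw [Set.Finite.mem_toFinset]
  rfl

theorem coe_FA (m : ℕ) : {𝔞 : Ideal (𝓞 M) | Ideal.absNorm 𝔞 = m} = (FA M m : Set _) := by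
  ext 𝔞
  rw [Finset.mem_coe, mem_FA]
  rfl

open Classical in
theorem be_eq {σ : M ≃ₐ[ℚ] M} {Nm : Ideal (𝓞 M) →*₀ Ideal GaussianInt} (hR : Rel σ Nm)
    (φ : Ideal (𝓞 M) →*₀ ℂ) (𝔫 : Ideal GaussianInt) :
    be Nm φ 𝔫 = ∑ 𝔞 ∈ (FA M (nI 𝔫)).filter (fun 𝔞 => Nm 𝔞 = 𝔫), (VM 𝔞 : ℂ) * φ 𝔞 := by
  unfold be
  have : {𝔞 : Ideal (𝓞 M) | Nm 𝔞 = 𝔫} =
      (((FA M (nI 𝔫)).filter (fun 𝔞 => Nm 𝔞 = 𝔫) : Finset _) : Set _) := by
    ext 𝔞
    simp only [Finset.coe_filter, mem_FA, Set.mem_ofPred_eq]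
    constructor
    · rintro rfl
      exact ⟨(hR.nm3 𝔞).symm, rfl⟩
    · exact fun h => h.2
  rw [this, finsum_mem_coe_finset]

open Classical in
/-- regrouping by the relative norm -/
theorem regroup {σ : M ≃ₐ[ℚ] M} {Nm : Ideal (𝓞 M) →*₀ Ideal GaussianInt} (hR : Rel σ Nm)
    (φ : Ideal (𝓞 M) →*₀ ℂ) {B : Finset GaussianInt} {N m : ℕ}
    (hB : ∀ n : GaussianInt, n ∈ B ↔ n ≠ 0 ∧ n.norm.natAbs ≤ N) (h1 : 1 ≤ m) (h2 : m ≤ N)
    (χ : GaussianInt →* ℂ) :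
    ∑ᶠ 𝔞 ∈ {𝔞 : Ideal (𝓞 M) | Ideal.absNorm 𝔞 = m}, (VM 𝔞 : ℂ) * (φ 𝔞 * chI χ (Nm 𝔞)) =
      ∑ 𝔫 ∈ Im B m, be Nm φ 𝔫 * chI χ 𝔫 := by
  rw [coe_FA, finsum_mem_coe_finset, ← Finset.sum_fiberwise_of_maps_to (t := Im B m)
    (g := fun 𝔞 => Nm 𝔞)]
  · refine Finset.sum_congr rfl fun 𝔫 h𝔫 => ?_
    have hn : nI 𝔫 = m := (mem_Im hB h1 h2 𝔫).1 h𝔫
    rw [be_eq hR, hn, Finset.sum_mul]
    refine Finset.sum_congr rfl fun 𝔞 h𝔞 => ?_
    rw [(Finset.mem_filter.1 h𝔞).2]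
    ring
  · intro 𝔞 h𝔞
    rw [mem_Im hB h1 h2, hR.nm3]
    exact mem_FA.1 h𝔞

/-- the sum of the squares -/
theorem sq_sum {σ : M ≃ₐ[ℚ] M} {Nm : Ideal (𝓞 M) →*₀ Ideal GaussianInt} (hR : Rel σ Nm)
    (φ : Ideal (𝓞 M) →*₀ ℂ) {B : Finset GaussianInt} {N m : ℕ}
    (hB : ∀ n : GaussianInt, n ∈ B ↔ n ≠ 0 ∧ n.norm.natAbs ≤ N) (h1 : 1 ≤ m) (h2 : m ≤ N) :
    ∑ 𝔫 ∈ Im B m, ‖be Nm φ 𝔫‖ ^ 2 =
      (ArithmeticFunction.vonMangoldt m * ‖cS Nm φ m‖) ^ 2 := by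
  classical
  have e : ∑ᶠ 𝔫 ∈ {𝔫 : Ideal GaussianInt | nI 𝔫 = m}, ‖be Nm φ 𝔫‖ ^ 2 =
      ∑ 𝔫 ∈ Im B m, ‖be Nm φ 𝔫‖ ^ 2 := by
    have : {𝔫 : Ideal GaussianInt | nI 𝔫 = m} = (Im B m : Set _) := by
      ext 𝔫
      rw [Finset.mem_coe, mem_Im hB h1 h2]
      rfl
    rw [this, finsum_mem_coe_finset]
  have hpos : 0 ≤ ∑ 𝔫 ∈ Im B m, ‖be Nm φ 𝔫‖ ^ 2 := Finset.sum_nonneg fun _ _ => sq_nonneg _
  unfold cS
  rw [e]
  by_cases hL : ArithmeticFunction.vonMangoldt m = 0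
  · rw [hL, zero_mul, zero_pow two_ne_zero]
    refine Finset.sum_eq_zero fun 𝔫 h𝔫 => ?_
    have hn : nI 𝔫 = m := (mem_Im hB h1 h2 𝔫).1 h𝔫
    have h0 : be Nm φ 𝔫 = 0 := by
      rw [be_eq hR, hn]
      refine Finset.sum_eq_zero fun 𝔞 h𝔞 => ?_
      have h3 : Ideal.absNorm 𝔞 = m := mem_FA.1 (Finset.mem_filter.1 h𝔞).1
      have h4 : ¬ IsPrimePow 𝔞 := by
        intro h5
        have h6 := pp 𝔞 h5
        rw [h3] at h6
        exact ArithmeticFunction.vonMangoldt_eq_zero_iff.1 hL h6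
      unfold VM
      rw [if_neg h4, Complex.ofReal_zero, zero_mul]
    rw [h0, norm_zero, zero_pow two_ne_zero]
  · have hL' : 0 < ArithmeticFunction.vonMangoldt m :=
      lt_of_le_of_ne ArithmeticFunction.vonMangoldt_nonneg (Ne.symm hL)
    rw [Complex.norm_real, Real.norm_of_nonneg (by positivity), mul_div_cancel₀ _ hL,
      Real.sq_sqrt hpos]

end

open Classical in
theorem t_lsm : St_LSM := by
  intro M _ _ _ σ Nm hR φ I S w χ P N A B hS hA hB hLS v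
  set b : GaussianInt → ℂ := fun n =>
    if Nat.Coprime n.norm.natAbs P.norm.natAbs then
      (1 / 4) * v n.norm.natAbs * be Nm φ (Ideal.span {n}) else 0 with hb
  have hmaps : ∀ n ∈ B, n.norm.natAbs ∈ Finset.Icc 1 N := by
    intro n hn
    obtain ⟨h1, h2⟩ := (hB n).1 hn
    rw [Finset.mem_Icc]
    refine ⟨?_, h2⟩
    have h3 : n.norm ≠ 0 := by
      intro h
      exact h1 ((Zsqrtd.norm_eq_zero_iff (by norm_num) n).1 h)
    omega
  have hkey := hLS b (fun n hn => by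
    simp only [hb]
    rw [if_neg fun h => hn (cop h)])
  have h1 : ∀ i ∈ S, ∑ n ∈ B, b n * χ i n = ∑ m ∈ Finset.Icc 1 N, v m *
      (if Nat.Coprime m P.norm.natAbs then
        ∑ᶠ 𝔞 ∈ {𝔞 : Ideal (𝓞 M) | Ideal.absNorm 𝔞 = m}, (VM 𝔞 : ℂ) * (φ 𝔞 * chI (χ i) (Nm 𝔞))
      else 0) := by
    intro i hi
    rw [← Finset.sum_fiberwise_of_maps_to hmaps]
    refine Finset.sum_congr rfl fun m hm => ?_
    obtain ⟨hm1, hm2⟩ := Finset.mem_Icc.1 hm
    by_cases hc : Nat.Coprime m P.norm.natAbs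
    · rw [if_pos hc, regroup hR φ hB hm1 hm2 (χ i)]
      have e : ∑ n ∈ B.filter (fun n => n.norm.natAbs = m), b n * χ i n =
          ∑ n ∈ B.filter (fun n => n.norm.natAbs = m),
            (fun 𝔫 => (1 / 4) * v m * (be Nm φ 𝔫 * chI (χ i) 𝔫)) (Ideal.span {n}) := by
        refine Finset.sum_congr rfl fun n hn => ?_
        have hn2 := (Finset.mem_filter.1 hn).2
        simp only [hb]
        rw [hn2, if_pos hc, chI_span _ (hS i hi).2]
        ring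
      refine e.trans ((sum4 hB (fun 𝔫 => (1 / 4) * v m * (be Nm φ 𝔫 * chI (χ i) 𝔫))).trans ?_)
      rw [← Finset.mul_sum, nsmul_eq_mul]
      push_cast
      ring
    · rw [if_neg hc, mul_zero]
      refine Finset.sum_eq_zero fun n hn => ?_
      have hn2 := (Finset.mem_filter.1 hn).2
      simp only [hb]
      rw [hn2, if_neg hc, zero_mul]
  have h2 : ∑ n ∈ B, ‖b n‖ ^ 2 ≤ (1 / 4) * ∑ m ∈ Finset.Icc 1 N, ‖v m‖ ^ 2 *
      (ArithmeticFunction.vonMangoldt m * ‖cS Nm φ m‖) ^ 2 := by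
    rw [← Finset.sum_fiberwise_of_maps_to hmaps, Finset.mul_sum]
    refine Finset.sum_le_sum fun m hm => ?_
    obtain ⟨hm1, hm2⟩ := Finset.mem_Icc.1 hm
    calc ∑ n ∈ B.filter (fun n => n.norm.natAbs = m), ‖b n‖ ^ 2
        ≤ ∑ n ∈ B.filter (fun n => n.norm.natAbs = m),
            (fun 𝔫 => (1 / 16) * ‖v m‖ ^ 2 * ‖be Nm φ 𝔫‖ ^ 2) (Ideal.span {n}) := by
          refine Finset.sum_le_sum fun n hn => ?_
          have hn2 := (Finset.mem_filter.1 hn).2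
          simp only [hb]
          rw [hn2]
          split_ifs with hc
          · rw [norm_mul, norm_mul]
            have : ‖(1 / 4 : ℂ)‖ = 1 / 4 := by norm_num
            rw [this]
            apply le_of_eq
            ring
          · rw [norm_zero, zero_pow two_ne_zero]
            positivity
      _ = 1 / 4 * (‖v m‖ ^ 2 * (ArithmeticFunction.vonMangoldt m * ‖cS Nm φ m‖) ^ 2) := by
          refine (sum4 hB (fun 𝔫 => (1 / 16) * ‖v m‖ ^ 2 * ‖be Nm φ 𝔫‖ ^ 2)).trans ?_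
          rw [← Finset.mul_sum, sq_sum hR φ hB hm1 hm2, nsmul_eq_mul]
          push_cast
          ring
  calc _ = ∑ i ∈ S, w i * ‖∑ n ∈ B, b n * χ i n‖ ^ 2 :=
        Finset.sum_congr rfl fun i hi => by rw [h1 i hi]
    _ ≤ 4 * A * ∑ n ∈ B, ‖b n‖ ^ 2 := hkey
    _ ≤ 4 * A * ((1 / 4) * ∑ m ∈ Finset.Icc 1 N, ‖v m‖ ^ 2 *
        (ArithmeticFunction.vonMangoldt m * ‖cS Nm φ m‖) ^ 2) :=
        mul_le_mul_of_nonneg_left h2 (by positivity)
    _ = _ := by ring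

end Pool.Agent.Y737.D4
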